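import Mathlib

set_option autoImplicit false
open Finset

namespace Pool.Agent.H.MP_9da210_nt

variable {M : ℕ} [NeZero M]

noncomputable def ee (x : ZMod M) : ℂ := ZMod.stdAddChar x

noncomputable def FT (f : ZMod M → ℝ) (r : ZMod M) : ℂ := ∑ x, f x * ee (r * x)

lemma ee_add (x y : ZMod M) : ee (x + y) = ee x * ee y := AddChar.map_add_eq_mul _ _ _

lemma ee_norm (x : ZMod M) : ‖ee x‖ = 1 := by simp [ee]

lemma ee_neg (x : ZMod M) : (starRingEnd ℂ) (ee x) = ee (-x) := by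
  simp [ee, AddChar.map_neg_eq_conj]

lemma ee_sum (t : ZMod M) : ∑ r, ee (r * t) = if t = 0 then (M : ℂ) else 0 := by
  have := AddChar.sum_mulShift t (ZMod.isPrimitive_stdAddChar M)
  simpa [ee] using this

lemma pars (f : ZMod M → ℝ) : ∑ r, ‖FT f r‖ ^ 2 = M * ∑ x, f x ^ 2 := by
  have : ∀ r, ((‖FT f r‖ ^ 2 : ℝ) : ℂ) = ∑ x, ∑ y, f x * f y * ee (r * (x - y)) := fun r => by
    rw [Complex.ofReal_pow, ← Complex.mul_conj', FT, map_sum, sum_mul_sum]
    refine sum_congr rfl fun x _ => sum_congr rfl fun y _ => ?_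
    rw [map_mul, ee_neg, Complex.conj_ofReal, mul_sub, sub_eq_add_neg, ee_add]; ring
  apply Complex.ofReal_injective
  rw [Complex.ofReal_sum, sum_congr rfl fun r _ => this r, sum_comm]
  push_cast
  rw [mul_sum]
  refine sum_congr rfl fun x _ => ?_
  rw [sum_comm]
  simp [← mul_sum, ee_sum, sub_eq_zero, sq, mul_comm]

lemma tri (f h : ZMod M → ℝ) : ∑ r, FT f r ^ 2 * FT h (-2 * r) =
    M * ((∑ x, ∑ z, ∑ y, if x + z = 2 * y then f x * f z * h y else 0 : ℝ) : ℂ) := by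
  have : ∀ r, FT f r ^ 2 * FT h (-2 * r) =
      ∑ x, ∑ z, ∑ y, f x * f z * h y * ee (r * (x + z - 2 * y)) := fun r => by
    rw [FT, FT, sq, sum_mul_sum, sum_mul]
    refine sum_congr rfl fun x _ => ?_
    rw [sum_mul_sum]
    refine sum_congr rfl fun z _ => sum_congr rfl fun y _ => ?_
    rw [show r * (x + z - 2 * y) = r * x + r * z + -2 * r * y by ring, ee_add, ee_add]; ring
  rw [sum_congr rfl fun r _ => this r, sum_comm]
  push_cast
  simp only [mul_sum]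
  refine sum_congr rfl fun x _ => ?_
  rw [sum_comm]
  refine sum_congr rfl fun z _ => ?_
  rw [sum_comm]
  refine sum_congr rfl fun y _ => ?_
  rw [← mul_sum, ee_sum]
  simp only [sub_eq_zero]
  split_ifs <;> simp [mul_comm]

lemma FT_le (f : ZMod M → ℝ) (r : ZMod M) : ‖FT f r‖ ≤ ∑ x, |f x| :=
  (norm_sum_le _ _).trans_eq (sum_congr rfl fun x _ => by simp [ee_norm])

lemma dirichlet (R : Finset (ZMod M)) (Q : ℕ) (hQ : 0 < Q) : ∃ d : ℕ, 0 < d ∧
    d ≤ (2 * Q + 1) ^ (2 * R.card) ∧ ∀ r ∈ R, ‖ee (r * (d : ZMod M)) - 1‖ ≤ 2 / Q := by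
  have q : (0 : ℝ) < Q := by positivity
  have b : ∀ t : ℝ, |t| ≤ 1 → ⌊Q * t⌋ ∈ Icc (-(Q : ℤ)) Q := fun t h => by
    rw [abs_le] at h
    rw [mem_Icc, Int.le_floor, Int.floor_le_iff]
    push_cast
    constructor <;> nlinarith
  obtain ⟨x, hx, y, hy, n, e⟩ := exists_ne_map_eq_of_card_lt_of_maps_to
    (s := range ((2 * Q + 1) ^ (2 * R.card) + 1))
    (t := Fintype.piFinset fun _ : R => Icc (-(Q : ℤ)) Q ×ˢ Icc (-(Q : ℤ)) Q)
    (f := fun (d : ℕ) (r : R) => (⌊Q * (ee (r.1 * (d : ZMod M))).re⌋,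
      ⌊Q * (ee (r.1 * (d : ZMod M))).im⌋))
    (by
      have : (Q + 1 + Q : ℤ).toNat = 2 * Q + 1 := by omega
      simp [this, pow_mul, sq])
    (fun d _ => by
      simp only [Fintype.coe_piFinset, Set.mem_pi, Set.mem_univ, true_imp_iff, mem_coe, mem_product]
      exact fun r => ⟨b _ ((Complex.abs_re_le_norm _).trans_eq (ee_norm _)),
        b _ ((Complex.abs_im_le_norm _).trans_eq (ee_norm _))⟩)
  wlog l : x < y generalizing x y
  · exact this y hy x hx n.symm e.symm (by omega)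
  obtain ⟨d, rfl⟩ := Nat.exists_eq_add_of_le l.le
  refine ⟨d, by omega, by simp at hy; omega, fun r hr => ?_⟩
  have := Prod.ext_iff.1 (congrFun e ⟨r, hr⟩)
  have k : ∀ s t : ℝ, ⌊Q * s⌋ = ⌊Q * t⌋ → |t - s| ≤ 1 / Q := fun s t h => by
    rw [le_div_iff₀ q, ← abs_of_pos q, ← abs_mul, sub_mul, mul_comm t, mul_comm s]
    exact (Int.abs_sub_lt_one_of_floor_eq_floor h.symm).le
  rw [← one_mul ‖_‖, ← ee_norm (r * (x : ZMod M)), ← norm_mul, mul_sub, ← ee_add, mul_one, ← mul_add,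
    ← Nat.cast_add]
  refine (Complex.norm_le_abs_re_add_abs_im _).trans ?_
  rw [Complex.sub_re, Complex.sub_im]
  have := add_le_add (k _ _ this.1) (k _ _ this.2)
  rwa [← add_div, one_add_one_eq_two] at this

lemma conv (f : ZMod M → ℝ) (L : ℕ) (d r : ZMod M) (h : ‖ee (r * d) - 1‖ ≤ 1 / (2 * L)) :
    L / 2 * ‖FT f r‖ ≤ ‖FT (fun x => ∑ j ∈ range L, f (x - (j : ZMod M) * d)) r‖ := by
  have e : FT (fun x => ∑ j ∈ range L, f (x - (j : ZMod M) * d)) r =
      (∑ j ∈ range L, ee (r * ((j : ZMod M) * d))) * FT f r := by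
    simp only [FT, Complex.ofReal_sum, sum_mul, mul_sum]
    rw [sum_comm, sum_comm (s := univ)]
    refine sum_congr rfl fun j _ => ?_
    rw [← Equiv.sum_comp (Equiv.addRight ((j : ZMod M) * d))]
    simp [mul_add, ee_add, mul_comm, mul_left_comm, mul_assoc]
  have k : ∀ j : ℕ, ‖ee (r * ((j : ZMod M) * d)) - 1‖ ≤ j * ‖ee (r * d) - 1‖ := fun j => by
    induction j with
    | zero => simp [ee]
    | succ j ih =>
      rw [show ee (r * (((j + 1 : ℕ) : ZMod M) * d)) - 1 = ee (r * d) * (ee (r * ((j : ZMod M) * d)) - 1) +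
        (ee (r * d) - 1) by push_cast; rw [add_mul, one_mul, mul_add, ee_add]; ring]
      refine (norm_add_le _ _).trans ?_
      rw [norm_mul, ee_norm]; push_cast; linarith
  rw [e, norm_mul]
  refine mul_le_mul_of_nonneg_right ?_ (norm_nonneg _)
  have a : ‖∑ j ∈ range L, (ee (r * ((j : ZMod M) * d)) - 1)‖ ≤ L / 2 := by
    refine (norm_sum_le_of_le _ (n := fun _ => 1 / 2) fun j hj => (k j).trans ?_).trans_eq
      (by simp [div_eq_mul_inv])
    have : (j : ℝ) < L := by exact_mod_cast mem_range.1 hj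
    have p : (0 : ℝ) < L := (Nat.cast_nonneg j).trans_lt this
    refine (mul_le_mul this.le h (norm_nonneg _) p.le).trans_eq ?_
    field_simp
  rw [sum_sub_distrib, norm_sub_rev] at a
  have := norm_sub_norm_le (∑ _j ∈ range L, (1 : ℂ)) (∑ j ∈ range L, ee (r * ((j : ZMod M) * d)))
  simp only [sum_const, card_range, nsmul_eq_mul, mul_one, Complex.norm_natCast] at this a
  linarith

lemma energy (a n : ZMod M → ℝ) {α N : ℝ} (α0 : 0 < α) (N0 : 0 < N) (hM : (M : ℝ) ≤ 3 * N)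
    (h2 : Function.Injective fun r : ZMod M => -2 * r) (a2 : ∑ x, a x ^ 2 = α * N)
    (n1 : ∑ x, |n x| = N) (n2 : ∑ x, n x ^ 2 = N) (f1 : ∑ x, |a x - α * n x| ≤ 2 * α * N)
    (f2 : ∑ x, (a x - α * n x) ^ 2 ≤ α * N)
    (T : (∑ x, ∑ z, ∑ y, if x + z = 2 * y then a x * a z * (a y - α * n y) else 0) ≤
      -(α ^ 3 * N ^ 2 / 4)) : ∃ R : Finset (ZMod M), R.card * α ^ 3 ≤ 384 ∧
      α ^ 2 * N * M / 384 ≤ ∑ r ∈ R, ‖FT (fun x => a x - α * n x) r‖ ^ 2 := by
  have M0 : (0 : ℝ) < M := by exact_mod_cast NeZero.pos M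
  obtain ⟨v, hv⟩ : ∃ v : ZMod M → ℝ, ∀ r, v r = ‖FT (fun x => a x - α * n x) r‖ := ⟨_, fun _ => rfl⟩
  have v0 : ∀ r, 0 ≤ v r := fun r => hv r ▸ norm_nonneg _
  have v1 : ∀ r, v r ≤ 2 * α * N := fun r => hv r ▸ (FT_le _ _).trans f1
  have v2 : ∑ r, v (-2 * r) ^ 2 ≤ M * (α * N) := by
    rw [(Finite.injective_iff_bijective.1 h2).sum_comp fun r => v r ^ 2]
    simp only [hv, pars]
    gcongr
  have u : ∀ r, ‖FT a r‖ ≤ v r + α * ‖FT n r‖ := fun r => by
    rw [hv, show FT a r = FT (fun x => a x - α * n x) r + α * FT n r by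
      simp [FT, mul_sum, sub_mul, mul_assoc]]
    exact (norm_add_le _ _).trans_eq (by simp [abs_of_pos α0])
  have t : M * (α ^ 3 * N ^ 2 / 4) ≤ ∑ r, ‖FT a r‖ ^ 2 * v (-2 * r) := by
    have := norm_sum_le univ fun r => FT a r ^ 2 * FT (fun x => a x - α * n x) (-2 * r)
    rw [tri, norm_mul, Complex.norm_real, Complex.norm_natCast] at this
    simp only [norm_mul, norm_pow, ← hv] at this
    exact (mul_le_mul_of_nonneg_left ((le_neg.1 T).trans (neg_le_abs _)) M0.le).trans this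
  obtain ⟨R, hR⟩ : ∃ R : Finset (ZMod M), R = univ.filter fun r => α ^ 2 * N / 8 ≤ v (-2 * r) := ⟨_, rfl⟩
  have c : R.card * α ^ 3 ≤ 192 := by
    have : R.card • (α ^ 2 * N / 8) ^ 2 ≤ _ := (card_nsmul_le_sum R (fun r => v (-2 * r) ^ 2) _
      fun r hr => pow_le_pow_left₀ (by positivity) (by simpa [hR] using hr) 2).trans
      ((sum_le_univ_sum_of_nonneg fun _ => sq_nonneg _).trans v2)
    rw [nsmul_eq_mul] at this
    refine le_of_mul_le_mul_right ?_ (show 0 < α * N ^ 2 by positivity)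
    nlinarith [mul_le_mul_of_nonneg_right hM (mul_pos α0 N0).le]
  refine ⟨R ∪ R.image (-2 * ·), ?_, ?_⟩
  · have : ((R ∪ R.image (-2 * ·)).card : ℝ) ≤ R.card + R.card := by
      exact_mod_cast (card_union_le _ _).trans (Nat.add_le_add_left card_image_le _)
    nlinarith [pow_pos α0 3]
  simp only [← hv]
  obtain ⟨E, hE⟩ : ∃ E, E = ∑ r ∈ R ∪ R.image (-2 * ·), v r ^ 2 := ⟨_, rfl⟩
  have e1 : ∑ r ∈ R, v r ^ 2 ≤ E := hE ▸
    sum_le_sum_of_subset_of_nonneg subset_union_left fun _ _ _ => sq_nonneg _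
  have e2 : ∑ r ∈ R, v (-2 * r) ^ 2 ≤ E := by
    rw [hE, ← sum_image (f := fun r => v r ^ 2) h2.injOn]
    exact sum_le_sum_of_subset_of_nonneg subset_union_right fun _ _ _ => sq_nonneg _
  have : ∑ r, ‖FT a r‖ ^ 2 * v (-2 * r) ≤ ∑ r, (α ^ 2 * N / 8 * ‖FT a r‖ ^ 2 +
      α ^ 3 * N / 32 * ‖FT n r‖ ^ 2 + if r ∈ R then 4 * α * N * v r ^ 2 +
      32 * α * N * v (-2 * r) ^ 2 else 0) := sum_le_sum fun r _ => by
    have w1 : ‖FT n r‖ ≤ N := n1 ▸ FT_le _ _
    have w0 := norm_nonneg (FT n r)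
    have ur := u r
    generalize ‖FT n r‖ = w at *
    split_ifs with h
    · have p := v0 (-2 * r)
      have q := v1 (-2 * r)
      generalize v (-2 * r) = s at *
      have : ‖FT a r‖ ^ 2 ≤ 2 * v r ^ 2 + 2 * (α * w) ^ 2 := by
        nlinarith [pow_le_pow_left₀ (norm_nonneg _) ur 2, sq_nonneg (v r - α * w)]
      have b := mul_le_mul_of_nonneg_right this p
      have c := mul_le_mul_of_nonneg_left q (sq_nonneg (v r))
      have d := mul_le_mul_of_nonneg_left w1 (show 0 ≤ α ^ 2 * w * s by positivity)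
      have e := mul_nonneg (mul_pos α0 N0).le (sq_nonneg (α * w - 32 * s))
      have : 0 ≤ α ^ 2 * N / 8 * ‖FT a r‖ ^ 2 := by positivity
      nlinarith
    · have : v (-2 * r) ≤ α ^ 2 * N / 8 := le_of_not_ge (by simpa [hR] using h)
      have : 0 ≤ α ^ 3 * N / 32 * w ^ 2 := by positivity
      nlinarith [sq_nonneg ‖FT a r‖]
  simp only [sum_add_distrib, ← mul_sum, pars, a2, n2, sum_ite_mem, univ_inter] at this
  rw [← hE]
  refine le_of_mul_le_mul_right ?_ (show 0 < α * N by positivity)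
  nlinarith [mul_le_mul_of_nonneg_left e1 (mul_pos α0 N0).le,
    mul_le_mul_of_nonneg_left e2 (mul_pos α0 N0).le]

end Pool.Agent.H.MP_9da210_nt
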