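import Pool.Agent.H.MP_9da210_nt.A

set_option autoImplicit false
open Finset

namespace Pool.Agent.H.MP_9da210_nt

lemma sv (N : ℕ) (B : Finset ℕ) (h : B ⊆ range (2 * N + 1)) :
    ∑ x : ZMod (2 * N + 1), (if x.val ∈ B then 1 else 0 : ℝ) = B.card := by
  refine (Fin.sum_univ_eq_sum_range (fun k => if k ∈ B then (1 : ℝ) else 0) (2 * N + 1)).trans ?_
  simp [inter_eq_right.2 h]

set_option maxHeartbeats 3000000 in
lemma incr {N L m : ℕ} {A : Finset ℕ} (hA : A ⊆ range N) (fr : ThreeAPFree (A : Set ℕ)) {α : ℝ}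
    (α0 : 0 < α) (hα : α * N = A.card) (h4 : 4 ≤ α ^ 2 * N) (hm : 384 ≤ m * α ^ 3) (L0 : 0 < L)
    (hL : 12288 * (L * (9 * L) ^ (2 * m) : ℕ) ≤ α * N) :
    α * (1 + 1 / 3072) * L ≤ rothNumberNat L := by
  have N0 : (0 : ℝ) < N := pos_of_mul_pos_left (b := α ^ 2) (by linarith) (by positivity)
  have lt : ∀ k ∈ A, k < N := fun k h => mem_range.1 (hA h)
  have α1 : α ≤ 1 := by
    have : (A.card : ℝ) ≤ N := by exact_mod_cast (card_le_card hA).trans_eq (card_range N)
    nlinarith
  obtain ⟨a, ha⟩ : ∃ a : ZMod (2 * N + 1) → ℝ, ∀ x, a x = if x.val ∈ A then 1 else 0 :=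
    ⟨_, fun _ => rfl⟩
  obtain ⟨n, hn⟩ : ∃ n : ZMod (2 * N + 1) → ℝ, ∀ x, n x = if x.val ∈ range N then 1 else 0 :=
    ⟨_, fun _ => rfl⟩
  have sa : ∑ x, a x = α * N := by
    simp only [ha, hα]; exact sv N A (hA.trans (range_mono (by omega)))
  have sn : ∑ x, n x = N := by
    simp only [hn]; exact (sv N _ (range_mono (by omega))).trans (by simp)
  have a0 : ∀ x, 0 ≤ a x := fun x => by rw [ha]; positivity
  have n0 : ∀ x, 0 ≤ n x := fun x => by rw [hn]; positivity
  have n1 : ∀ x, n x ≤ 1 := fun x => by rw [hn]; split_ifs <;> simp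
  have aa : ∀ x, a x ^ 2 = a x := fun x => by simp [ha]
  have nn : ∀ x, n x ^ 2 = n x := fun x => by simp [hn]
  have an : ∀ x, a x * n x = a x := fun x => by
    by_cases h : x.val ∈ A <;> simp [ha, hn, h, lt]
  have ap : ∀ x z y : ZMod (2 * N + 1), x.val ∈ A → z.val ∈ A → y.val ∈ A → x + z = 2 * y →
      x = y := fun x z y hx hz hy e => ZMod.val_injective _ (fr hx hy hz (Nat.ModEq.eq_of_lt_of_lt
        ((ZMod.natCast_eq_natCast_iff _ _ (2 * N + 1)).1 (by simpa [two_mul] using e))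
        (by linarith [lt _ hx, lt _ hz]) (by linarith [lt _ hy])))
  have T1 : (∑ x, ∑ z, ∑ y, if x + z = 2 * y then a x * a z * a y else 0) ≤ α * N := by
    rw [← sa]
    refine sum_le_sum fun x _ => le_of_le_of_eq (sum_le_sum fun z _ => sum_le_sum fun y _ =>
      (?_ : _ ≤ if z = x then if y = x then a x else 0 else 0)) (by simp)
    by_cases h : x + z = 2 * y ∧ x.val ∈ A ∧ z.val ∈ A ∧ y.val ∈ A
    · obtain rfl := ap x z y h.2.1 h.2.2.1 h.2.2.2 h.1
      obtain rfl := ap z x x h.2.2.1 h.2.1 h.2.1 (add_comm z x ▸ h.1)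
      simp [ha, h]
    · refine le_trans (b := 0) ?_ (by split_ifs <;> simp [a0])
      simp only [ha]
      split_ifs <;> first | exact absurd ⟨‹_›, ‹_›, ‹_›, ‹_›⟩ h | norm_num
  have T2 : (α * N) ^ 2 / 2 ≤ ∑ x, ∑ z, ∑ y, if x + z = 2 * y then a x * a z * n y else 0 := by
    obtain ⟨e, he⟩ : ∃ e : ZMod (2 * N + 1) → ℝ, ∀ x, e x = if x.val % 2 = 0 then 1 else 0 :=
      ⟨_, fun _ => rfl⟩
    refine le_trans (b := ∑ x, ∑ z, (a x * e x * (a z * e z) + (a x - a x * e x) *
      (a z - a z * e z))) ?_ (sum_le_sum fun x _ => sum_le_sum fun z _ => ?_)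
    · simp only [sum_add_distrib, ← mul_sum, ← sum_mul, sum_sub_distrib, sa]
      nlinarith [sq_nonneg (α * N - 2 * ∑ x, a x * e x)]
    have p : ∀ y, 0 ≤ if x + z = 2 * y then a x * a z * n y else 0 := fun y => by
      split_ifs
      exacts [mul_nonneg (mul_nonneg (a0 _) (a0 _)) (n0 _), le_rfl]
    by_cases h : x.val ∈ A ∧ z.val ∈ A ∧ x.val % 2 = z.val % 2
    · refine le_trans ?_ (single_le_sum (fun y _ => p y)
        (mem_univ (((x.val + z.val) / 2 : ℕ) : ZMod (2 * N + 1))))
      have := lt _ h.1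
      have := lt _ h.2.1
      rw [if_pos (by
        have := congrArg (Nat.cast (R := ZMod (2 * N + 1)))
          (Nat.mul_div_cancel' (show 2 ∣ x.val + z.val by omega))
        rw [Nat.cast_mul, Nat.cast_add, ZMod.natCast_zmod_val, ZMod.natCast_zmod_val] at this
        exact this.symm), hn,
        ZMod.val_cast_of_lt (by omega), if_pos (mem_range.2 (by omega))]
      simp only [he, h.2.2]
      split_ifs <;> simp
    · refine le_trans (b := 0) ?_ (sum_nonneg fun y _ => p y)
      simp only [ha, he]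
      split_ifs <;> first | exact absurd ⟨‹_›, ‹_›, by omega⟩ h | norm_num
  obtain ⟨R, c, hR⟩ := energy a n α0 N0 (by
      have : (1 : ℝ) ≤ N := by exact_mod_cast (show 0 < N by exact_mod_cast N0)
      push_cast; linarith) (fun x y h => by
      have : IsUnit ((2 : ℕ) : ZMod (2 * N + 1)) := (ZMod.isUnit_iff_coprime _ _).2 (by simp)
      exact this.neg.mul_left_cancel (by simpa using h))
    (by simp only [aa, sa]) (by simp only [abs_of_nonneg (n0 _), sn]) (by simp only [nn, sn])
    ((sum_le_sum fun x _ => abs_sub _ _).trans (by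
      simp only [abs_mul, abs_of_nonneg (n0 _), abs_of_nonneg (a0 _), abs_of_pos α0,
        sum_add_distrib, ← mul_sum, sa, sn]; linarith))
    (by
      simp only [sub_sq, mul_pow, aa, nn, mul_assoc, mul_left_comm (a _), an, sum_add_distrib,
        sum_sub_distrib, ← mul_sum, sa, sn]
      nlinarith [mul_pos (pow_pos α0 2) N0])
    (by
      have : ∀ x z y, (if x + z = 2 * y then a x * a z * (a y - α * n y) else 0) =
          (if x + z = 2 * y then a x * a z * a y else 0) -
          α * if x + z = 2 * y then a x * a z * n y else 0 := fun x z y => by split_ifs <;> ring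
      simp only [this, sum_sub_distrib, ← mul_sum]
      nlinarith [mul_le_mul_of_nonneg_left T2 α0.le, mul_le_mul_of_nonneg_left h4 (mul_pos α0 N0).le])
  obtain ⟨d, d0, hd, D⟩ := dirichlet R (4 * L) (by omega)
  have l0 : (0 : ℝ) < L := by positivity
  have Ld : 12288 * (L * d : ℕ) ≤ α * N := by
    refine le_trans ?_ hL
    have : R.card ≤ m := by
      exact_mod_cast le_of_mul_le_mul_right (c.trans hm) (pow_pos α0 3)
    gcongr
    exact hd.trans ((Nat.pow_le_pow_left (by omega) _).trans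
      (Nat.pow_le_pow_right (by omega) (by omega)))
  have LN : L * d ≤ N := by
    have : ((L * d : ℕ) : ℝ) ≤ N := by nlinarith [Nat.cast_nonneg (α := ℝ) (L * d)]
    exact_mod_cast this
  have jd : ∀ j ∈ range L, j * d ≤ L * d := fun j h => Nat.mul_le_mul_right d (mem_range.1 h).le
  obtain ⟨p, hp⟩ : ∃ p : ZMod (2 * N + 1) → ℝ, ∀ x, p x =
    ∑ j ∈ range L, a (x - (j : ZMod (2 * N + 1)) * d) := ⟨_, fun _ => rfl⟩
  obtain ⟨q, hq⟩ : ∃ q : ZMod (2 * N + 1) → ℝ, ∀ x, q x =
    ∑ j ∈ range L, n (x - (j : ZMod (2 * N + 1)) * d) := ⟨_, fun _ => rfl⟩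
  have sh : ∀ (g : ZMod (2 * N + 1) → ℝ) t, ∑ x, g (x - t) = ∑ x, g x := fun g t =>
    Equiv.sum_comp (Equiv.subRight t) g
  have p1 : ∑ x, p x = L * (α * N) := by simp only [hp]; rw [sum_comm]; simp [sh, sa]
  have q1 : ∑ x, q x = L * N := by simp only [hq]; rw [sum_comm]; simp [sh, sn]
  have p2 : ∑ x, p x ^ 2 ≤ rothNumberNat L * (L * (α * N)) := by
    rw [← p1, mul_sum]
    refine sum_le_sum fun x _ => ?_
    rw [sq]
    refine mul_le_mul_of_nonneg_right ?_ (hp x ▸ sum_nonneg fun _ _ => a0 _)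
    simp only [hp, ha, sum_boole, Nat.cast_le]
    refine ThreeAPFree.le_rothNumberNat _ (fun i hi j hj k hk e => ?_)
      (fun _ h => mem_range.1 (mem_filter.1 h).1) rfl
    simp only [coe_filter, Set.mem_setOf_eq] at hi hj hk
    have := ap _ _ _ hi.2 hk.2 hj.2 (by
      have := congrArg (Nat.cast (R := ZMod (2 * N + 1))) e
      push_cast at this
      linear_combination -(d : ZMod (2 * N + 1)) * this)
    rw [sub_right_inj, ← Nat.cast_mul, ← Nat.cast_mul, ZMod.natCast_eq_natCast_iff] at this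
    exact Nat.eq_of_mul_eq_mul_right d0 (this.eq_of_lt_of_lt (by linarith [jd i hi.1])
      (by linarith [jd j hj.1]))
  have q2 : ∑ x, q x ^ 2 ≤ L * (L * N) := by
    rw [← q1, mul_sum]
    refine sum_le_sum fun x _ => ?_
    rw [sq]
    refine mul_le_mul_of_nonneg_right ?_ (hq x ▸ sum_nonneg fun _ _ => n0 _)
    simpa [hq] using sum_le_card_nsmul (range L) _ 1 fun j _ => n1 (x - (j : ZMod (2 * N + 1)) * d)
  have pq : L * (L * (α * N - 2 * (L * d : ℕ))) ≤ ∑ x, p x * q x := by
    simp only [hp, hq, sum_mul_sum]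
    rw [sum_comm]
    refine le_trans (by simp) (card_nsmul_le_sum (range L) _ (L * (α * N - 2 * (L * d : ℕ)))
      fun i hi => ?_)
    rw [sum_comm]
    refine le_trans (by simp) (card_nsmul_le_sum (range L) _ (α * N - 2 * (L * d : ℕ))
      fun j hj => ?_)
    rw [← Equiv.sum_comp (Equiv.addRight ((i : ZMod (2 * N + 1)) * d))]
    have u := sv N (range (L * d)) (range_mono (by omega))
    have v := sv N (Ico (N - L * d) N) fun k h => by simp at h ⊢; omega
    rw [Nat.card_Ico, show N - (N - L * d) = L * d by omega] at v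
    rw [card_range] at u
    rw [two_mul, ← sub_sub, ← sa]
    nth_rw 2 [← v]
    rw [← u, ← sum_sub_distrib, ← sum_sub_distrib]
    refine sum_le_sum fun y _ => ?_
    simp only [Equiv.coe_addRight, add_sub_cancel_right]
    have := jd i hi
    have := jd j hj
    by_cases h : y.val ∈ A ∧ L * d ≤ y.val ∧ y.val + L * d < N
    · rw [show y + (i : ZMod (2 * N + 1)) * d - (j : ZMod (2 * N + 1)) * d =
        ((y.val + i * d - j * d : ℕ) : ZMod (2 * N + 1)) by
          rw [Nat.cast_sub (by omega)]; simp, hn, ZMod.val_cast_of_lt (by omega),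
        if_pos (mem_range.2 (show y.val + i * d - j * d < N by omega))]
      split_ifs <;> linarith
    · refine le_trans (b := 0) ?_ (mul_nonneg (a0 _) (n0 _))
      have := lt y.val
      simp only [ha, mem_range, mem_Ico]
      split_ifs <;> first | exact absurd ⟨‹_›, by omega, by have := this ‹_›; omega⟩ h | norm_num
  have M0 : (0 : ℝ) < (2 * N + 1 : ℕ) := by positivity
  have : (2 * N + 1 : ℕ) * (α ^ 2 * N * L ^ 2 / 1536) ≤
      (2 * N + 1 : ℕ) * ∑ x, (p x - α * q x) ^ 2 := by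
    rw [← pars]
    refine le_trans ?_ (sum_le_univ_sum_of_nonneg (s := R) fun _ => sq_nonneg _)
    refine le_trans ?_ (sum_le_sum fun r hr => pow_le_pow_left₀ (by positivity)
      ((conv (fun x => a x - α * n x) L d r ((D r hr).trans_eq (by
        push_cast; field_simp; norm_num))).trans_eq (by
        simp only [hp, hq, sum_sub_distrib, mul_sum])) 2)
    simp only [mul_pow, ← mul_sum]
    nlinarith [mul_le_mul_of_nonneg_left hR (sq_nonneg (L / 2 : ℝ))]
  have := le_of_mul_le_mul_left this M0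
  simp only [sub_sq, mul_pow, mul_assoc, mul_left_comm (p _), sum_add_distrib, sum_sub_distrib,
    ← mul_sum] at this
  refine le_of_mul_le_mul_right ?_ (show 0 < L * (α * N) by positivity)
  nlinarith [mul_le_mul_of_nonneg_left pq α0.le, mul_le_mul_of_nonneg_left q2 (sq_nonneg α),
    mul_le_mul_of_nonneg_left Ld (show 0 ≤ α * L ^ 2 by positivity)]

lemma iter (K : ℕ) (K0 : 0 < K) (t : ℕ) : ∀ N, (12288 * K ^ 2) ^ (2000 * K ^ 3) ^ t ≤ N → ∀ α : ℝ,
    1 / K ≤ α → α * N ≤ rothNumberNat N → α * (1 + 1 / 3072) ^ t ≤ 1 := by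
  have k : (1 : ℝ) ≤ K := by exact_mod_cast K0
  have B : ∀ s, 12288 * K ^ 2 ≤ (12288 * K ^ 2) ^ (2000 * K ^ 3) ^ s := fun s =>
    Nat.le_self_pow (by positivity) _
  have B0 : 12288 * K ≤ 12288 * K ^ 2 := by nlinarith
  induction t with
  | zero =>
    intro N hN α _ h
    have : (0 : ℝ) < N := by exact_mod_cast (show 0 < N by have := B 0; omega)
    have : (rothNumberNat N : ℝ) ≤ N := by exact_mod_cast rothNumberNat_le N
    nlinarith
  | succ t ih =>
    intro N hN α a h
    obtain ⟨A, hA, c, fr⟩ := rothNumberNat_spec N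
    have hB := (B _).trans hN
    have N0 : (0 : ℝ) < N := by exact_mod_cast (show 0 < N by omega)
    obtain ⟨β, hβ⟩ : ∃ β : ℝ, β * N = A.card := ⟨A.card / N, by field_simp⟩
    have ab : α ≤ β := le_of_mul_le_mul_right (by rwa [hβ, c]) N0
    have b : 1 ≤ β * K := (div_le_iff₀ (by positivity)).1 (a.trans ab)
    have β0 : 0 < β := pos_of_mul_pos_left (b := (K : ℝ)) (by linarith) (by positivity)
    rw [pow_succ _ t, pow_mul] at hN
    have hL := B t
    generalize (12288 * K ^ 2) ^ (2000 * K ^ 3) ^ t = L at *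
    have := ih L le_rfl _ (by nlinarith) (incr (m := 384 * K ^ 3) hA fr β0 hβ (by
      have : ((12288 * K ^ 2 : ℕ) : ℝ) ≤ N := by exact_mod_cast hB
      push_cast at this
      nlinarith [one_le_pow₀ (n := 2) b, mul_le_mul_of_nonneg_left this (sq_nonneg β)]) (by
      push_cast; nlinarith [one_le_pow₀ (n := 3) b]) (show 0 < L by omega) (by
      have : 12288 * K * (L * (9 * L) ^ (2 * (384 * K ^ 3))) ≤ N := by
        refine le_trans ?_ ((Nat.pow_le_pow_right (i := 1 + (1 + 2 * (2 * (384 * K ^ 3))))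
          (by omega) (by nlinarith [Nat.one_le_pow 3 K K0])).trans hN)
        rw [pow_add, pow_add, pow_one, pow_mul L 2]
        gcongr <;> nlinarith
      generalize L * (9 * L) ^ (2 * (384 * K ^ 3)) = X at *
      have : (12288 * K * X : ℝ) ≤ N := by exact_mod_cast this
      nlinarith [mul_le_mul_of_nonneg_left this β0.le,
        mul_le_mul_of_nonneg_right b (Nat.cast_nonneg X)]))
    rw [pow_succ']
    nlinarith [pow_pos (show (0 : ℝ) < 1 + 1 / 3072 by norm_num) t]

lemma roth (j N : ℕ) (h : 2 ^ 2 ^ (40000 * (j + 1) ^ 2) ≤ N) : rothNumberNat N * 2 ^ j ≤ N := by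
  by_contra! c
  have := iter (2 ^ j) (by positivity) (3072 * (j + 1)) N (le_trans ?_ h) _ le_rfl (by
    rw [div_mul_eq_mul_div, one_mul, div_le_iff₀ (by positivity)]; exact_mod_cast c.le)
  · rw [pow_mul, one_div, inv_mul_le_iff₀ (by positivity)] at this
    have a := pow_le_pow_left₀ (by norm_num) (show (2 : ℝ) ≤ (1 + 1 / 3072) ^ 3072 from
      le_trans (by norm_num) (one_add_mul_le_pow (by norm_num) 3072)) (j + 1)
    have := a.trans this
    push_cast at this
    rw [pow_succ] at this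
    nlinarith [pow_pos (show (0 : ℝ) < 2 by norm_num) j]
  have e : ∀ a b c d : ℕ, a ≤ 2 ^ b → b + j * c ≤ d → a * (2 ^ j) ^ c ≤ 2 ^ d := fun a b c d x y => by
    rw [← pow_mul]
    exact (Nat.mul_le_mul_right _ x).trans (pow_add 2 b _ ▸ Nat.pow_le_pow_right two_pos y)
  refine (Nat.pow_le_pow_left (e _ 14 2 (2 ^ (14 * (j + 1))) (by norm_num)
    (le_trans (by omega) Nat.lt_two_pow_self.le)) _).trans ?_
  rw [← pow_mul]
  refine Nat.pow_le_pow_right two_pos ((Nat.mul_le_mul_left _ (Nat.pow_le_pow_left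
    (e _ 11 3 (11 * (j + 1)) (by norm_num) (by omega)) _)).trans ?_)
  rw [← pow_mul, ← pow_add]
  exact Nat.pow_le_pow_right two_pos (by nlinarith)

end Pool.Agent.H.MP_9da210_nt
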